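import Pool.Agent.ZPK.StmtsA

/-!
# ZPK, row FNA: the output of block A
-/

set_option autoImplicit false

namespace Pool.Agent.ZPK.H49

open Polynomial Pool.Agent.ZPT Pool.Agent.ZP3 Pool.Agent.ZPK

theorem fna (hKX : ZPT.KXStmt) (hPS : ZPT.PSStmt) (hB : BlvStmt) (hF : FlvStmt) : FnaStmt := by
  obtain ⟨U, Psi, hU, hPsi, hK⟩ := hPS
  intro Gn hLoc n P hP hdim hDef B
  obtain ⟨p₀, N, b, e, f, hbr, hmain⟩ := hB Gn hLoc U Psi hU hPsi n P hP hdim hDef B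
  refine ⟨max p₀ 5, N, b, e, f, hbr, ?_⟩
  intro p _ hp ι c hc hn hg
  have hpp : p.Prime := Fact.out
  have h1 := hmain p hpp (le_trans (le_max_left _ _) hp) ℂ_[p] (hKX p)
    (hK p hpp (le_trans (le_max_right _ _) hp) ℂ_[p] (hKX p)) ι c hc hn hg
  exact hF Psi hPsi n P hP hdim hDef c h1

end Pool.Agent.ZPK.H49
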