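import Pool.Agent.ZPK.StmtsT

/-!
# ZPK, rows QVI, QVF: a radial pair at a critical radius
-/

set_option autoImplicit false

namespace Pool.Agent.ZPK.H49

open Polynomial Pool.Agent.ZPT Pool.Agent.ZP3 Pool.Agent.ZPK

theorem q_np {p : ℕ} (hp : p.Prime) {K : Type} [NormedField K] [CharZero K] (hE : ZPT.Ext p K) :
    ‖(p : K)‖ = (p : ℝ)⁻¹ := by
  have : Fact p.Prime := ⟨hp⟩
  have h := hE (p : ℚ)
  rw [padicNorm.padicNorm_p_of_prime] at h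
  simpa using h

theorem q_mul_one {K : Type} [NormedField K] [IsUltrametricDist K] {F : K} {ρ : ℝ} (hF : ‖F - 1‖ ≤ ρ)
    (hρ : ρ < 1) (k : ℕ) : ‖F ^ k - 1‖ ≤ ρ := by
  have hρ0 : 0 ≤ ρ := le_trans (norm_nonneg _) hF
  have hF1 : ‖F‖ ≤ 1 := by
    have e : F = (F - 1) + 1 := by ring
    rw [e]
    refine le_trans (IsUltrametricDist.norm_add_le_max _ _) ?_
    rw [norm_one]
    exact max_le (le_trans hF hρ.le) le_rfl
  induction k with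
  | zero => simpa using hρ0
  | succ k ih =>
    have e : F ^ (k + 1) - 1 = F * (F ^ k - 1) + (F - 1) := by ring
    rw [e]
    refine le_trans (IsUltrametricDist.norm_add_le_max _ _) (max_le ?_ hF)
    rw [norm_mul]
    calc ‖F‖ * ‖F ^ k - 1‖ ≤ 1 * ρ := mul_le_mul hF1 ih (norm_nonneg _) zero_le_one
      _ = ρ := one_mul _

/-- the root of `F` -/
theorem q_root (hM : ZP3.MTHStmt) {p : ℕ} (hp : p.Prime) {K : Type} [NormedField K] [CharZero K]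
    [IsUltrametricDist K] [IsAlgClosed K] (hE : ZPT.Ext p K) {e e₁ : ℕ} (h1 : 1 ≤ e₁) (h2 : e₁ < p)
    {F : K} {ρ : ℝ} (hF : ‖F - 1‖ ≤ ρ) (hρ : ρ < 1) : ∃ f : K, f ^ e₁ = F ^ e ∧ ‖f - 1‖ ≤ ρ := by
  have hnd : ¬ p ∣ e₁ := fun h => by
    have := Nat.le_of_dvd (by omega) h
    omega
  obtain ⟨f, hf1, hf2⟩ := hM p hp K hE e₁ (F ^ e) 1 ρ h1 hnd one_ne_zero hρ (by
    rw [one_pow, norm_one, mul_one]
    exact q_mul_one hF hρ e)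
  exact ⟨f, hf1, by simpa using hf2⟩

/-- the root of the leading coefficient -/
theorem q_lead (hU : ZP3.URTStmt) {p : ℕ} (hp : p.Prime) {K : Type} [NormedField K] [CharZero K]
    [IsUltrametricDist K] [IsAlgClosed K] (hE : ZPT.Ext p K) {L : Subfield K} (hL : Unr p L)
    {e e₁ : ℕ} (h1 : 1 ≤ e₁) (h2 : e₁ < p) {A : ℕ → K} {g : K} (hA : Cd L e₁ A g) :
    ∃ b : K, b ^ e₁ = A 0 ^ e ∧ Uu p b := by
  have hnd : ¬ p ∣ e₁ := fun h => by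
    have := Nat.le_of_dvd (by omega) h
    omega
  obtain ⟨b, hb⟩ := IsAlgClosed.exists_pow_nat_eq (A 0 ^ e) (show 0 < e₁ by omega)
  have hA0 : ‖A 0‖ = 1 := hA.A0 h1
  have hbn : ‖b‖ = 1 := by
    have : ‖b‖ ^ e₁ = 1 := by
      rw [← norm_pow, hb, norm_pow, hA0, one_pow]
    exact (pow_eq_one_iff_of_nonneg (norm_nonneg _) (by omega)).1 this
  refine ⟨b, hb, (hU p hp K hE).2 b e₁ h1 hnd hbn ?_⟩
  rw [hb]
  obtain ⟨F, hF, hFL⟩ := hL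
  have hle : ‖A 0 ^ e‖ ≤ 1 := by rw [norm_pow, hA0, one_pow]
  exact ⟨hle, F, hF, hFL _ (L.pow_mem (hA.An 0) e) hle⟩

/-- the power relation -/
theorem q_pow {K : Type} [NormedField K] {e e₁ : ℕ} {A₀ b f t q : K} (hA : A₀ ≠ 0) (ht : t ≠ 0)
    (hb : b ^ e₁ = A₀ ^ e) (hf : f ^ e₁ = (t ^ e₁ * q⁻¹ / A₀) ^ e) :
    (b * f / t ^ e) ^ e₁ = (q⁻¹) ^ e := by
  rw [div_pow, mul_pow, hb, hf, div_pow, mul_pow]
  have h1 : t ^ e ≠ 0 := pow_ne_zero _ ht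
  have h2 : A₀ ^ e ≠ 0 := pow_ne_zero _ hA
  have h3 : (t ^ e₁) ^ e = (t ^ e) ^ e₁ := by rw [← pow_mul, ← pow_mul, mul_comm]
  rw [h3]
  have h4 : (t ^ e) ^ e₁ ≠ 0 := pow_ne_zero _ h1
  field_simp

theorem q_dep {K : Type} [NormedField K] {e e₁ : ℕ} {Q q₁ q₂ : K} {a b : ℕ}
    (hQ : Q ^ e₁ = (q₁⁻¹) ^ e) (h : q₁ ^ a = q₂ ^ b) : Q ^ (e₁ * a) = (q₂⁻¹) ^ (e * b) := by
  rw [pow_mul, hQ, ← pow_mul, mul_comm e a, pow_mul, inv_pow, h, ← inv_pow, ← pow_mul, mul_comm b e]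

theorem qvi (_h1 : ZP3.URRStmt) (hU : ZP3.URTStmt) (hT : ZP3.THBStmt) (hM : ZP3.MTHStmt)
    (_h2 : UnvStmt) (hN : NumStmt) (hL : RnlStmt) (hS : RsmStmt) : QviStmt := by
  intro U hUU p E hp hE1 hpE K _ _ _ _ _ hE L hUnr e e₁ e₂ A₁ A₂ g₁ g₂ hc₁ hc₂ he hee he₁ he₂
  have hp5 : 5 ≤ p := by nlinarith [sq_nonneg (E : ℤ)]
  have he1p : e₁ < p := by nlinarith
  have h1e₁ : 1 ≤ e₁ := le_trans he hee
  obtain ⟨b, hb, hbU⟩ := q_lead hU hp hE hUnr (e := e) h1e₁ he1p hc₁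
  refine ⟨b, hbU, ?_⟩
  intro t q₁ q₂ ht0 hLa hth hA₁ hA₂ hdep
  have ht : t ≠ 0 := norm_pos_iff.1 ht0
  obtain ⟨ht1, hq1, hF, hF1⟩ := hL U hUU p hp hp5 K hE L e e₁ A₁ g₁ hc₁ he hee t q₁ ht0 hLa hA₁
  obtain ⟨hn1, hn2, hn3, hn4⟩ := hN p E hp hE1 hpE
  obtain ⟨hn5, hn6, hn7⟩ := hn4 ‖t‖ e ht0 ht1 he (le_trans hee he₁)
  obtain ⟨ht2, ht3, ht4, -, -⟩ := hT p hp hp5
  have hnp : ‖(p : K)‖ = (p : ℝ)⁻¹ := q_np hp hE
  have hppos : (0 : ℝ) < p := by exact_mod_cast hp.pos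
  have hpK : (p : K) ≠ 0 := by
    rw [← norm_pos_iff, hnp]
    positivity
  have htr : ‖t‖ ≤ rh p E := hn5 hLa
  have hr1 : rh p E < 1 := lt_of_lt_of_le hn3 (pow_le_one₀ ht3.le ht4.le)
  have hA0 : ‖A₁ 0‖ = 1 := hc₁.A0 h1e₁
  have hA00 : A₁ 0 ≠ 0 := by
    rw [← norm_pos_iff, hA0]
    exact one_pos
  set F : K := t ^ e₁ * q₁⁻¹ / A₁ 0 with hFd
  -- the root
  have hroot : ∃ f : K, f ^ e₁ = F ^ e ∧ ‖f - (1 + lL e e₁ A₁ g₁ * (t ^ e / p))‖ ≤ ‖t‖ := by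
    rcases eq_or_ne e₁ e with h | h
    · exact ⟨F, by rw [h], hF⟩
    · have hl : lL e e₁ A₁ g₁ = 0 := if_neg h
      rw [hl, zero_mul, add_zero] at hF ⊢
      exact q_root hM hp hE h1e₁ he1p hF ht1
  obtain ⟨f, hf1, hf2⟩ := hroot
  obtain ⟨a', b', ha', hb', hab⟩ := hdep
  have hwn : ‖t ^ e / (p : K)‖ = ‖t‖ ^ e * p := by
    rw [norm_div, norm_pow, hnp, div_inv_eq_mul]
  rw [hwn] at hth
  have hth2 : th p ^ 2 ≤ ‖t‖ ^ e * p := by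
    refine le_trans ?_ hth
    have : th p ^ 2 ≤ th p ^ 1 := pow_le_pow_of_le_one ht3.le ht4.le (by norm_num)
    simpa using this
  have hsm := hn6 hLa hth2 e₂ he₂
  have hte2 : 0 < ‖t‖ ^ e₂ := pow_pos ht0 _
  have hSm : Sm p e₂ t := by
    have h5 := lt_of_le_of_lt hsm hr1
    rw [div_lt_one hte2] at h5
    exact h5
  obtain ⟨hq2, hq2', -⟩ := hS U hUU p hp hp5 K hE L e₂ A₂ g₂ hc₂ t q₂ ht0 ht1 hSm hA₂
  have hpt : ‖(p : K) / t ^ e₂‖ ≤ rh p E := by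
    rw [norm_div, norm_pow, hnp]
    exact hsm
  refine ⟨b * f / t ^ e, q₂⁻¹, e₁ * a', e * b', Nat.mul_pos (by omega) (by omega),
    Nat.mul_pos (by omega) (by omega), q_dep (q_pow hA00 ht hb hf1) hab, ?_, ?_⟩
  · have hte : t ^ e ≠ 0 := pow_ne_zero _ ht
    have e1 : (p : K) * (b * f / t ^ e) * (t ^ e / p) - b * (1 + lL e e₁ A₁ g₁ * (t ^ e / p))
        = b * (f - (1 + lL e e₁ A₁ g₁ * (t ^ e / p))) := by
      have : (p : K) * (b * f / t ^ e) * (t ^ e / p) = b * f := by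
        field_simp
      rw [this]
      ring
    rw [e1, norm_mul, hbU.2, one_mul]
    exact le_trans hf2 htr
  · have e1 : (p : K) * q₂⁻¹ - g₂ = (p * q₂⁻¹ - (g₂ + A₂ 0 * (p / t ^ e₂))) + A₂ 0 * (p / t ^ e₂) := by
      ring
    rw [e1]
    refine le_trans (IsUltrametricDist.norm_add_le_max _ _) (max_le ?_ ?_)
    · refine le_trans hq2' (max_le hn1 ?_)
      calc ‖(p : K) / t ^ e₂‖ * ‖t‖ ≤ rh p E * 1 :=
            mul_le_mul hpt ht1.le (norm_nonneg _) hn2.le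
        _ = rh p E := mul_one _
    · rw [norm_mul]
      calc ‖A₂ 0‖ * ‖(p : K) / t ^ e₂‖ ≤ 1 * rh p E :=
            mul_le_mul (hc₂.An1 0) hpt (norm_nonneg _) zero_le_one
        _ = rh p E := one_mul _

theorem qvf (_h1 : ZP3.URRStmt) (hU : ZP3.URTStmt) (hT : ZP3.THBStmt) (hM : ZP3.MTHStmt)
    (_h2 : UnvStmt) (hN : NumStmt) (hL : RlaStmt) (hS : RnsStmt) : QvfStmt := by
  intro U hUU p E hp hE1 hpE K _ _ _ _ _ hE L hUnr e e₁ e₂ A₁ A₂ g₁ g₂ hc₁ hc₂ he hee he₁ he₂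
  have hp5 : 5 ≤ p := by nlinarith [sq_nonneg (E : ℤ)]
  have he1p : e₁ < p := by nlinarith
  have h1e₁ : 1 ≤ e₁ := by omega
  obtain ⟨b, hb, hbU⟩ := q_lead hU hp hE hUnr (e := e) h1e₁ he1p hc₁
  refine ⟨b, hbU, ?_⟩
  intro t q₁ q₂ ht0 ht1 hSm hth hA₁ hA₂ hdep
  have ht : t ≠ 0 := norm_pos_iff.1 ht0
  obtain ⟨hn1, hn2, hn3, hn4⟩ := hN p E hp hE1 hpE
  obtain ⟨hn5, hn6, hn7⟩ := hn4 ‖t‖ e ht0 ht1 he (by omega)
  obtain ⟨ht2, ht3, ht4, -, -⟩ := hT p hp hp5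
  have hnp : ‖(p : K)‖ = (p : ℝ)⁻¹ := q_np hp hE
  have hppos : (0 : ℝ) < p := by exact_mod_cast hp.pos
  have hpK : (p : K) ≠ 0 := by
    rw [← norm_pos_iff, hnp]
    positivity
  have hr1 : rh p E < 1 := lt_of_lt_of_le hn3 (pow_le_one₀ ht3.le ht4.le)
  have hwn : ‖(p : K) / t ^ e‖ = (p : ℝ)⁻¹ / ‖t‖ ^ e := by
    rw [norm_div, norm_pow, hnp]
  have hth2 : th p ^ 2 ≤ (p : ℝ)⁻¹ / ‖t‖ ^ e := by
    rw [hwn] at hth
    refine le_trans ?_ hth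
    have : th p ^ 2 ≤ th p ^ 1 := pow_le_pow_of_le_one ht3.le ht4.le (by norm_num)
    simpa using this
  obtain ⟨htr, hbig⟩ := hn7 hth2
  have hA0 : ‖A₁ 0‖ = 1 := hc₁.A0 h1e₁
  have hA00 : A₁ 0 ≠ 0 := by
    rw [← norm_pos_iff, hA0]
    exact one_pos
  have hb1 := hbig e₁ hee
  have hLa : La p e₁ t := by
    have h5 : ‖t‖ ^ e₁ * p < 1 := lt_of_le_of_lt hb1 hr1
    have h6 : ‖t‖ ^ e₁ < 1 / p := by
      rw [lt_div_iff₀ hppos]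
      exact h5
    rwa [one_div] at h6
  obtain ⟨hq1, hRL⟩ := hL U hUU p hp hp5 K hE L e₁ A₁ g₁ hc₁ h1e₁ t q₁ ht0 ht1 hLa hA₁
  set F : K := t ^ e₁ * q₁⁻¹ / A₁ 0 with hFd
  have hF : ‖F - 1‖ ≤ rh p E := by
    have h5 := hRL 1 le_rfl
    rw [Finset.sum_range_one, div_self hA00, pow_zero, one_mul, pow_one] at h5
    have e1 : F - 1 = (F - (1 + g₁ / A₁ 0 * (t ^ e₁ / p))) + g₁ / A₁ 0 * (t ^ e₁ / p) := by ring
    rw [e1]
    refine le_trans (IsUltrametricDist.norm_add_le_max _ _) (max_le ?_ ?_)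
    · refine le_trans h5 (max_le htr ?_)
      have : ‖t‖ ^ e₁ ≤ ‖t‖ ^ 1 := pow_le_pow_of_le_one ht0.le ht1.le h1e₁
      rw [pow_one] at this
      exact le_trans this htr
    · rw [norm_mul, norm_div, hc₁.g1, hA0, div_one, one_mul, norm_div, norm_pow, hnp, div_inv_eq_mul]
      exact hb1
  obtain ⟨f, hf1, hf2⟩ := q_root hM hp hE (e := e) h1e₁ he1p hF hr1
  obtain ⟨a', b', ha', hb', hab⟩ := hdep
  obtain ⟨hq2, hq2'⟩ := hS U hUU p hp hp5 K hE L e e₂ A₂ g₂ hc₂ he he₂ t q₂ ht0 ht1 hSm hA₂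
  have hw1 : ‖(p : K) / t ^ e‖ ≤ 1 := by
    rw [hwn, div_le_one (pow_pos ht0 _)]
    exact hSm.le
  refine ⟨b * f / t ^ e, q₂⁻¹, e₁ * a', e * b', Nat.mul_pos (by omega) (by omega),
    Nat.mul_pos (by omega) (by omega), q_dep (q_pow hA00 ht hb hf1) hab, ?_, ?_⟩
  · have e1 : (p : K) * (b * f / t ^ e) - b * (p / t ^ e) = (p / t ^ e) * b * (f - 1) := by
      ring
    rw [e1, norm_mul, norm_mul, hbU.2, mul_one]
    calc ‖(p : K) / t ^ e‖ * ‖f - 1‖ ≤ 1 * rh p E :=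
          mul_le_mul hw1 hf2 (norm_nonneg _) zero_le_one
      _ = rh p E := one_mul _
  · refine le_trans hq2' ?_
    calc ‖t‖ * ‖(p : K) / t ^ e‖ ≤ rh p E * 1 :=
          mul_le_mul htr hw1 (norm_nonneg _) hn2.le
      _ = rh p E := mul_one _

end Pool.Agent.ZPK.H49
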