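import Pool.Agent.ZPK.StmtsA

/-!
# ZPK, row SIM: simultaneous expansions of all coordinates
-/

set_option autoImplicit false

namespace Pool.Agent.ZPK.H49

open Polynomial Pool.Agent.ZPT Pool.Agent.ZP3 Pool.Agent.ZPK

theorem evQ_map' {K : Type} [Field K] (ι : Qb →+* K) (G : Qb[X][X]) (x y : Qb) :
    evQ ι G (ι x) (ι y) = ι (evQ (RingHom.id Qb) G x y) := by
  have h1 : Polynomial.eval₂RingHom ι (ι x) =
      ι.comp (Polynomial.eval₂RingHom (RingHom.id Qb) x) := by
    refine Polynomial.ringHom_ext ?_ ?_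
    · intro a
      simp
    · simp
  unfold evQ
  rw [Polynomial.eval_map, Polynomial.eval_map, Polynomial.hom_eval₂, h1]

theorem sim (hPLN : ZP3.PLNStmt) (hPUO : PuoStmt) (hFGS : ZP3.FGSStmt) (hURA : ZP3.URAStmt)
    (hEVF : ZP3.EVFStmt) : SimStmt := by
  intro n P hP hdim hDef b
  choose G hG0 hG using fun i => hPLN n P hP hdim hDef b i
  choose mi L e f p0 hm hFG hc hpt using fun i => hPUO (G i) (hG0 i)
  choose S hS using fun i l => hFG i l
  choose q0 hq0 using fun i l => hURA (S i l)
  have hdvd : ∀ i, mi i ∣ ∏ j, mi j := fun i => Finset.dvd_prod_of_mem mi (Finset.mem_univ i)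
  have hmpos : 1 ≤ ∏ j, mi j := Finset.one_le_prod' (fun i _ => hm i)
  choose k hk using hdvd
  have hk0 : ∀ i, k i ≠ 0 := by
    intro i h0
    have h1 := hk i
    rw [h0, mul_zero] at h1
    omega
  let eqv := Fintype.equivFin (∀ i, Fin (L i))
  obtain ⟨_, hC, _, _, hexp, _⟩ := hFGS
  refine ⟨∏ j, mi j, Fintype.card (∀ i, Fin (L i)),
    fun l i => if i = b then ∏ j, mi j else k i * e i ((eqv.symm l) i),
    fun l i => if i = b then 1 else PowerSeries.expand (k i) (hk0 i) (f i ((eqv.symm l) i)),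
    ∑ i, p0 i + ∑ i, ∑ l, q0 i l, hmpos, ?_, ?_⟩
  · intro l
    refine ⟨?_, ?_, ?_, ?_⟩
    · intro i
      dsimp only
      split_ifs
      · have h1 := hC 1
        rw [map_one] at h1
        exact h1
      · exact hexp _ _ _ (hFG i _)
    · dsimp only
      rw [if_pos rfl]
      exact hmpos
    · dsimp only
      rw [if_pos rfl]
    · intro i hi
      dsimp only at hi ⊢
      split_ifs at hi ⊢
      · rw [map_one]
        exact one_ne_zero
      · rw [PowerSeries.constantCoeff_expand]
        apply hc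
        rcases Nat.eq_zero_or_pos (e i ((eqv.symm l) i)) with h0 | h0
        · rw [h0, mul_zero] at hi
          omega
        · exact h0
  · intro p hp hpp K _ _ _ _ hExt ι x hx t ht0 ht1 hb
    have hp0 : ∀ i, p0 i ≤ p := by
      intro i
      have h1 : p0 i ≤ ∑ i, p0 i := Finset.single_le_sum (fun _ _ => Nat.zero_le _)
        (Finset.mem_univ i)
      omega
    have hqp : ∀ i l, q0 i l ≤ p := by
      intro i l
      have h1 : q0 i l ≤ ∑ l, q0 i l := Finset.single_le_sum (f := fun l => q0 i l)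
        (fun _ _ => Nat.zero_le _) (Finset.mem_univ l)
      have h2 : ∑ l, q0 i l ≤ ∑ i, ∑ l, q0 i l := Finset.single_le_sum
        (f := fun i => ∑ l, q0 i l) (fun _ _ => Nat.zero_le _) (Finset.mem_univ i)
      omega
    have hex : ∀ i, ∃ l : Fin (L i), ι (x i) = evK ι (f i l) (t ^ k i) / (t ^ k i) ^ e i l := by
      intro i
      apply hpt i p hp (hp0 i) K hExt ι (t ^ k i) (ι (x i))
      · rw [norm_pow]
        exact pow_pos ht0 _
      · rw [norm_pow]
        exact pow_lt_one₀ ht0.le ht1 (hk0 i)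
      · have h1 : 1 / (t ^ k i) ^ mi i = ι (x b) := by
          rw [hb, ← pow_mul, mul_comm (k i) (mi i), ← hk i]
        rw [h1, evQ_map', hG i x hx, map_zero]
    choose l hl using hex
    refine ⟨eqv l, ?_, ?_⟩
    · dsimp only
      rw [if_pos rfl]
    · intro i
      dsimp only
      rw [Equiv.symm_apply_apply]
      split_ifs with hi
      · have h1 := (hEVF K ι ∅ (by simp) t ht1 0 0 (fun m => by simp) (fun m => by simp)).2.2.2.1 1
        rw [map_one, map_one] at h1
        rw [h1, hi, hb]
      · have hSn : ∀ g ∈ S i (l i), ‖ι g‖ ≤ 1 := by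
          intro g hg
          by_cases h0 : g = 0
          · rw [h0, map_zero, norm_zero]
            exact zero_le_one
          · exact ((hq0 i (l i) p hp (hqp i (l i)) K hExt ι g hg).2 h0).le
        have h1 := (hEVF K ι (S i (l i)) hSn t ht1 (f i (l i)) (f i (l i)) (hS i (l i))
          (hS i (l i))).2.2.2.2.2.1 (k i) (hk0 i)
        rw [h1, hl i, ← pow_mul]

end Pool.Agent.ZPK.H49
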